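import Pool.Agent.H57.CM.Targets
import Pool.Agent.H57.LH.Ex
import Pool.Agent.H57.LH.ExRows

/-!
# Types in lexicographic products
-/

set_option autoImplicit false
set_option linter.unusedVariables false

namespace Pool.Agent.H36.CM

open Pool.Agent.H68.BP Pool.Agent.H58.SF Pool.Agent.H53.NR
open Pool.Agent.H53.GC (strOn sigOf)
open Pool.Agent.H57.AR (tp ty Ty)
open Pool.Agent.H57.LH (Hmg tp_strOn tp_iff)
open Pool.Agent.H72.CH
open Pool.Agent.H57.CM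
open Function

/-- **Types in lexicographic products.** -/
theorem pf_LTP : T_LTP := by
  intro τ₁ τ₂ V₁ V₂ J 𝔹₁ 𝔹₂ har x y
  unfold lex
  rw [tp_strOn (Ar := LAr τ₁ τ₂)]
  constructor
  · rintro ⟨h1, h2⟩
    have hE : ∀ a b : J, (x a).1 = (x b).1 ↔ (y a).1 = (y b).1 := fun a b =>
      h2 (Sum.inr (Sum.inr ())) (![a, b] : Fin 2 → J)
    refine ⟨tp_iff.2 ⟨hE, fun l z => h2 (Sum.inl l) z⟩, fun a₀ => tp_iff.2 ⟨fun a b => ?_,
      fun l z => ?_⟩⟩
    · have h3 : (x a).1 = (x b).1 := a.2.trans b.2.symm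
      have h4 : (y a).1 = (y b).1 := (hE a b).1 h3
      constructor
      · intro h
        exact congrArg Prod.snd ((h1 a b).1 (Prod.ext h3 h))
      · intro h
        exact congrArg Prod.snd ((h1 a b).2 (Prod.ext h4 h))
    · have h3 : ((∀ i j, (x (z i)).1 = (x (z j)).1) ∧ 𝔹₂ l (fun i => (x (z i)).2)) ↔
          ((∀ i j, (y (z i)).1 = (y (z j)).1) ∧ 𝔹₂ l (fun i => (y (z i)).2)) :=
        h2 (Sum.inr (Sum.inl l)) (fun i => (z i).1)
      have h4 : ∀ i j, (x (z i)).1 = (x (z j)).1 := fun i j => (z i).2.trans (z j).2.symm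
      have h5 : ∀ i j, (y (z i)).1 = (y (z j)).1 := fun i j => (hE _ _).1 (h4 i j)
      exact ⟨fun h => (h3.1 ⟨h4, h⟩).2, fun h => (h3.2 ⟨h5, h⟩).2⟩
  · rintro ⟨h1, h2⟩
    have hE : ∀ a b : J, (x a).1 = (x b).1 ↔ (y a).1 = (y b).1 := (tp_iff.1 h1).1
    have hF : ∀ a b : J, (x a).1 = (x b).1 → ((x a).2 = (x b).2 ↔ (y a).2 = (y b).2) :=
      fun a b h => (tp_iff.1 (h2 a)).1 ⟨a, rfl⟩ ⟨b, h.symm⟩
    refine ⟨fun a b => ⟨fun h => ?_, fun h => ?_⟩, fun s z => ?_⟩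
    · have h3 : (x a).1 = (x b).1 := congrArg Prod.fst h
      exact Prod.ext ((hE a b).1 h3) ((hF a b h3).1 (congrArg Prod.snd h))
    · have h3 : (x a).1 = (x b).1 := (hE a b).2 (congrArg Prod.fst h)
      exact Prod.ext h3 ((hF a b h3).2 (congrArg Prod.snd h))
    · rcases s with l | l | u
      · exact (tp_iff.1 h1).2 l z
      · have h3 : (∀ i j, (x (z i)).1 = (x (z j)).1) →
            (𝔹₂ l (fun i => (x (z i)).2) ↔ 𝔹₂ l (fun i => (y (z i)).2)) := fun h4 =>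
          (tp_iff.1 (h2 (z ⟨0, har l⟩))).2 l (fun i => ⟨z i, h4 i ⟨0, har l⟩⟩)
        show ((∀ i j, (x (z i)).1 = (x (z j)).1) ∧ 𝔹₂ l (fun i => (x (z i)).2)) ↔
          ((∀ i j, (y (z i)).1 = (y (z j)).1) ∧ 𝔹₂ l (fun i => (y (z i)).2))
        constructor
        · rintro ⟨h4, h5⟩
          exact ⟨fun i j => (hE _ _).1 (h4 i j), (h3 h4).1 h5⟩
        · rintro ⟨h4, h5⟩
          have h6 : ∀ i j, (x (z i)).1 = (x (z j)).1 := fun i j => (hE _ _).2 (h4 i j)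
          exact ⟨h6, (h3 h6).2 h5⟩
      · exact hE (z (0 : Fin 2)) (z (1 : Fin 2))

end Pool.Agent.H36.CM
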